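import Mathlib

/-!
# Hereditary continuous representability does not imply semicontinuous representability

The ordinal `ω₁` with the topology of its final segments has HCRP but not SRP.
-/

namespace Pool.Agent.Results.MP_67ce71_gt.HereditaryNotSRP

open Set

/-- A total preorder: a reflexive, transitive and complete relation. -/
structure IsTotalPreord {X : Type*} (r : X → X → Prop) : Prop where
  refl : ∀ x, r x x
  trans : ∀ x y z, r x y → r y z → r x z
  total : ∀ x y, r x y ∨ r y x

/-- The strict part of `r`. -/
def Strict {X : Type*} (r : X → X → Prop) (x y : X) : Prop := r x y ∧ ¬ r y x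

/-- `τ`-lower semicontinuous: every `U(x) = {y | x ≺ y}` is open. -/
def IsLSC {X : Type*} [TopologicalSpace X] (r : X → X → Prop) : Prop :=
  ∀ x, IsOpen {y | Strict r x y}

/-- `τ`-upper semicontinuous: every `L(x) = {y | y ≺ x}` is open. -/
def IsUSC {X : Type*} [TopologicalSpace X] (r : X → X → Prop) : Prop :=
  ∀ x, IsOpen {y | Strict r y x}

/-- `u` is a utility representation of `r`. -/
def Represents {X : Type*} (u : X → ℝ) (r : X → X → Prop) : Prop :=
  ∀ x y, r x y ↔ u x ≤ u y

/-- The semicontinuous representability property. -/
def SRP (X : Type*) [TopologicalSpace X] : Prop :=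
  (∀ r : X → X → Prop, IsTotalPreord r → IsLSC r →
    ∃ u : X → ℝ, (∀ a : ℝ, IsOpen {x | a < u x}) ∧ Represents u r) ∧
  (∀ r : X → X → Prop, IsTotalPreord r → IsUSC r →
    ∃ u : X → ℝ, (∀ a : ℝ, IsOpen {x | u x < a}) ∧ Represents u r)

/-- The continuous representability property. -/
def CRP (X : Type*) [TopologicalSpace X] : Prop :=
  ∀ r : X → X → Prop, IsTotalPreord r → IsLSC r → IsUSC r →
    ∃ u : X → ℝ, Continuous u ∧ Represents u r

/-- The hereditary continuous representability property: every non-empty subspace has CRP. -/
def HCRP (X : Type*) [TopologicalSpace X] : Prop :=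
  ∀ Y : Set X, Y.Nonempty → CRP Y

/-- In a space whose open sets form a chain there is no non-trivial continuous total preorder. -/
theorem crp_of_nested {X : Type*} [TopologicalSpace X]
    (h : ∀ U V : Set X, IsOpen U → IsOpen V → U ⊆ V ∨ V ⊆ U) : CRP X := by
  intro r hr hl hu
  have key : ∀ x y, ¬ Strict r x y := by
    intro x y hxy
    rcases h _ _ (hl x) (hu y) with h1 | h1
    · have : y ∈ {z | Strict r z y} := h1 hxy
      exact this.2 this.1
    · have : x ∈ {z | Strict r x z} := h1 hxy
      exact this.2 this.1
  refine ⟨fun _ => 0, continuous_const, ?_⟩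
  intro x y
  simp only [le_refl, iff_true]
  rcases hr.total x y with h1 | h1
  · exact h1
  · by_contra h2
    exact key y x ⟨h1, h2⟩

theorem result : ∃ (X : Type) (_ : TopologicalSpace X), HCRP X ∧ ¬ SRP X := by
  let X : Type := (Ordinal.omega 1).ToType
  let τ : TopologicalSpace X := Topology.upperSet X
  have hτ : Topology.IsUpperSet X := ⟨rfl⟩
  refine ⟨X, τ, ?_, ?_⟩
  · intro Y _
    apply crp_of_nested
    intro U V hU hV
    obtain ⟨U', hU', rfl⟩ := isOpen_induced_iff.1 hU
    obtain ⟨V', hV', rfl⟩ := isOpen_induced_iff.1 hV
    rw [Topology.IsUpperSet.isOpen_iff_isUpperSet] at hU' hV'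
    rcases hU'.total hV' with h | h
    · exact Or.inl (preimage_mono h)
    · exact Or.inr (preimage_mono h)
  · rintro ⟨h, -⟩
    have htot : IsTotalPreord (fun x y : X => x ≤ y) :=
      ⟨fun x => le_rfl, fun x y z => le_trans, fun x y => le_total x y⟩
    have hlsc : IsLSC (fun x y : X => x ≤ y) := by
      intro x
      rw [Topology.IsUpperSet.isOpen_iff_isUpperSet]
      intro a b hab ha
      have ha' : x < a := lt_of_le_not_ge ha.1 ha.2
      exact ⟨(ha'.trans_le hab).le, not_le.2 (ha'.trans_le hab)⟩
    obtain ⟨u, -, hu⟩ := h _ htot hlsc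
    have hmono : StrictMono u := by
      intro a b hab
      have h1 : ¬ u b ≤ u a := fun h' => absurd ((hu b a).2 h') (not_le.2 hab)
      exact not_le.1 h1
    -- an uncountable well-order does not embed in the reals
    have hunc : Uncountable X := by
      rw [← Cardinal.aleph0_lt_mk_iff]
      have : Cardinal.mk X = Cardinal.aleph 1 := by
        simp [X, Cardinal.mk_toType]
      rw [this]
      exact Cardinal.aleph0_lt_aleph_one
    -- successor function
    by_cases hmax : ∃ m : X, ∀ x, x ≤ m
    · -- work below the maximum
      obtain ⟨m, hm⟩ := hmax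
      have hne : ∀ x : X, x ≠ m → ∃ q : ℚ, u x < q ∧ ∀ y, x < y → (q : ℝ) < u y := by
        intro x hx
        have hxm : x < m := lt_of_le_of_ne (hm x) hx
        have hS : (Set.Ioi x).Nonempty := ⟨m, hxm⟩
        let s := WellFounded.min (wellFounded_lt (α := X)) (Set.Ioi x) hS
        have hs : x < s := WellFounded.min_mem _ _ hS
        obtain ⟨q, hq1, hq2⟩ := exists_rat_btwn (hmono hs)
        refine ⟨q, hq1, ?_⟩
        intro y hy
        refine hq2.trans_le (hmono.monotone ?_)
        exact not_lt.1 (WellFounded.not_lt_min (wellFounded_lt (α := X)) (s := Set.Ioi x) (x := y) hy)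
      choose! q hq1 hq2 using hne
      have hinj : Set.InjOn q {x | x ≠ m} := by
        intro x hx y hy hxy
        rcases lt_trichotomy x y with h' | h' | h'
        · have h1 := hq2 x hx y h'
          have h2 := hq1 y hy
          rw [hxy] at h1
          exact absurd (h1.trans h2) (lt_irrefl _)
        · exact h'
        · have h1 := hq2 y hy x h'
          have h2 := hq1 x hx
          rw [← hxy] at h1
          exact absurd (h1.trans h2) (lt_irrefl _)
      have hc : ({x | x ≠ m} : Set X).Countable :=
        Set.MapsTo.countable_of_injOn (mapsTo_univ _ _) hinj (Set.countable_univ)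
      have : (Set.univ : Set X).Countable := by
        have : (Set.univ : Set X) ⊆ {x | x ≠ m} ∪ {m} := by
          intro x _
          by_cases hx : x = m
          · exact Or.inr hx
          · exact Or.inl hx
        exact (hc.union (Set.countable_singleton m)).mono this
      exact (Set.not_countable_univ_iff.2 hunc) this
    · push Not at hmax
      have hne : ∀ x : X, ∃ q : ℚ, u x < q ∧ ∀ y, x < y → (q : ℝ) < u y := by
        intro x
        have hS : (Set.Ioi x).Nonempty := by
          obtain ⟨y, hy⟩ := hmax x
          exact ⟨y, hy⟩
        let s := WellFounded.min (wellFounded_lt (α := X)) (Set.Ioi x) hS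
        have hs : x < s := WellFounded.min_mem _ _ hS
        obtain ⟨q, hq1, hq2⟩ := exists_rat_btwn (hmono hs)
        refine ⟨q, hq1, ?_⟩
        intro y hy
        refine hq2.trans_le (hmono.monotone ?_)
        exact not_lt.1 (WellFounded.not_lt_min (wellFounded_lt (α := X)) (s := Set.Ioi x) (x := y) hy)
      choose q hq1 hq2 using hne
      have hinj : Function.Injective q := by
        intro x y hxy
        rcases lt_trichotomy x y with h' | h' | h'
        · have h1 := hq2 x y h'
          have h2 := hq1 y
          rw [hxy] at h1
          exact absurd (h1.trans h2) (lt_irrefl _)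
        · exact h'
        · have h1 := hq2 y x h'
          have h2 := hq1 x
          rw [← hxy] at h1
          exact absurd (h1.trans h2) (lt_irrefl _)
      have : Countable X := hinj.countable
      exact (not_countable_iff.2 hunc) this

end Pool.Agent.Results.MP_67ce71_gt.HereditaryNotSRP
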